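import Pool.Agent.Q238.SD.Cayley

/-!
# The Legendre symbol of the square root of `det [(j² - k²)³ ((j² - k²)/p)]`

For every prime `p ≡ 1 (mod 4)` the determinant is the square of an integer, and every integer `s`
with `s² = D_p^{(3)}` has `(s/p) = (-1)^{N_p} (p/(4 + (-1)^{(p-1)/4}))`.

Idea of the proof: modulo `p` the entries are `(x - y)^{n+3}`, `n = (p-1)/2`, with `x, y` running over
the `n`-th roots of unity `1², …, n²`. Pairing the monomials gives, for `p > 5`,
`D ≡ (V (1 + C(n+3,3)) (n + 3 + C(n+3,2)) ∏_{i=4}^{n/2+1} C(n+3, i))²` with the Vandermonde determinant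
`V`; the quadratic symbols of `V` and of the binomial coefficients are computed with Wilson's theorem
and superfactorials. The prime `p = 5` is checked directly.
-/

set_option autoImplicit false

namespace Pool.Agent.Results.MP_dd0b6b_nt.SqrtSymbolThree

open Q238.SD

/-- The full answer: `D_p^{(3)}` is a perfect square and its square roots have the symbol
`(-1)^{N_p} (p/(4 + (-1)^{(p-1)/4}))`. -/
theorem result (p : ℕ) [Fact p.Prime] (hp : p % 4 = 1) :
    (∃ s : ℤ, s ^ 2 = sqDet p 3 ((p - 1) / 2)) ∧
      ∀ s : ℤ, s ^ 2 = sqDet p 3 ((p - 1) / 2) →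
        legendreSym p s = (-1) ^ countN p * jacobiSym p (4 + (-1) ^ ((p - 1) / 4) : ℤ).toNat :=
  ⟨exists_sqrt p hp 1 _, fun s hs => final_three hp s hs⟩

end Pool.Agent.Results.MP_dd0b6b_nt.SqrtSymbolThree
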